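import Mathlib

/-!
# Units modulo a polynomial with complex multiplication

`g` is a monic irreducible integral polynomial and `c / m` an integral polynomial divided by an
integer such that the complex conjugate of each root `α` of `g` is `c(α) / m`.
-/

set_option autoImplicit false
set_option linter.all false

open Polynomial
open scoped Classical

namespace Pool.Agent.H19CM

/-- homogenisation: `m^(d-1) P(c / m)` -/
noncomputable def Hm {R : Type} [CommRing R] (d : ℕ) (c : ℤ[X]) (m : ℤ) (P : R[X]) : R[X] :=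
  ∑ i ∈ Finset.range d, C (P.coeff i) * (c.map (Int.castRingHom R)) ^ i * C ((m : R) ^ (d - 1 - i))

theorem Hm_add {R : Type} [CommRing R] (d : ℕ) (c : ℤ[X]) (m : ℤ) (P Q : R[X]) :
    Hm d c m (P + Q) = Hm d c m P + Hm d c m Q := by
  unfold Hm
  rw [← Finset.sum_add_distrib]
  refine Finset.sum_congr rfl fun i _ => ?_
  rw [coeff_add, C_add]
  ring

theorem Hm_C_mul {R : Type} [CommRing R] (d : ℕ) (c : ℤ[X]) (m : ℤ) (a : R) (P : R[X]) :
    Hm d c m (C a * P) = C a * Hm d c m P := by
  unfold Hm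
  rw [Finset.mul_sum]
  refine Finset.sum_congr rfl fun i _ => ?_
  rw [coeff_C_mul, C_mul]
  ring

theorem Hm_map {R S : Type} [CommRing R] [CommRing S] (φ : R →+* S) (d : ℕ) (c : ℤ[X]) (m : ℤ)
    (P : R[X]) : (Hm d c m P).map φ = Hm d c m (P.map φ) := by
  unfold Hm
  rw [Polynomial.map_sum]
  refine Finset.sum_congr rfl fun i _ => ?_
  have e : φ.comp (Int.castRingHom R) = Int.castRingHom S := Subsingleton.elim _ _
  rw [Polynomial.map_mul, Polynomial.map_mul, Polynomial.map_pow, map_C, map_C, Polynomial.map_map,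
    e, coeff_map]
  simp

theorem eval₂_Hm {R K : Type} [CommRing R] [Field K] [CharZero K] (ψ : R →+* K) {d : ℕ} (hd : 0 < d)
    (c : ℤ[X]) {m : ℤ} (hm : m ≠ 0) (P : R[X]) (hP : P.natDegree < d) (β : K) :
    eval₂ ψ β (Hm d c m P) = (m : K) ^ (d - 1) * eval₂ ψ (aeval β c / m) P := by
  have hmK : (m : K) ≠ 0 := Int.cast_ne_zero.2 hm
  have e : eval₂ ψ β (c.map (Int.castRingHom R)) = aeval β c := by
    rw [eval₂_map, aeval_def]
    congr 1
    exact Subsingleton.elim _ _
  rw [eval₂_eq_sum_range' ψ hP, Hm, eval₂_finset_sum, Finset.mul_sum]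
  refine Finset.sum_congr rfl fun i hi => ?_
  have hi' := Finset.mem_range.1 hi
  rw [eval₂_mul, eval₂_mul, eval₂_C, eval₂_C, eval₂_pow, e, div_pow, map_pow, map_intCast]
  have h1 : (m : K) ^ (d - 1) = (m : K) ^ (d - 1 - i) * (m : K) ^ i := by
    rw [← pow_add]
    congr 1
    omega
  rw [h1]
  field_simp

/-- complex multiplication by `c / m` -/
def HasConj (g c : ℤ[X]) (m : ℤ) : Prop :=
  m ≠ 0 ∧ ∀ α : ℂ, aeval α g = 0 → α.im ≠ 0 ∧ aeval α c = m * (starRingEnd ℂ) α

/-- a torsion exponent of a number field -/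
theorem exists_torsion (K : Type) [Field K] [NumberField K] :
    ∃ W : ℕ, 0 < W ∧ ∀ x : K, (∃ n : ℕ, 0 < n ∧ x ^ n = 1) → x ^ W = 1 := by
  refine ⟨Nat.card (NumberField.Units.torsion K), Nat.card_pos, ?_⟩
  rintro x ⟨n, hn, hx⟩
  have hxi : IsIntegral ℤ x := by
    refine IsIntegral.of_pow hn ?_
    rw [hx]
    exact isIntegral_one
  obtain ⟨y, hy⟩ : ∃ y : NumberField.RingOfIntegers K,
      algebraMap (NumberField.RingOfIntegers K) K y = x := ⟨⟨x, hxi⟩, rfl⟩
  have hx0 : y ^ n = 1 := by
    apply FaithfulSMul.algebraMap_injective (NumberField.RingOfIntegers K) K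
    rw [map_pow, map_one, hy]
    exact hx
  let u : (NumberField.RingOfIntegers K)ˣ := Units.ofPowEqOne y n hx0 hn.ne'
  have hu : u ^ n = 1 := by
    apply Units.ext
    rw [Units.val_pow_eq_pow_val]
    exact hx0
  have hut : u ∈ NumberField.Units.torsion K := by
    rw [NumberField.Units.torsion, CommGroup.mem_torsion]
    exact isOfFinOrder_iff_pow_eq_one.2 ⟨n, hn, hu⟩
  have h1 := pow_card_eq_one' (x := (⟨u, hut⟩ : NumberField.Units.torsion K))
  have h2 := congrArg (fun t : NumberField.Units.torsion K =>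
    algebraMap (NumberField.RingOfIntegers K) K
      ((t : (NumberField.RingOfIntegers K)ˣ) : NumberField.RingOfIntegers K)) h1
  simp only [Subgroup.coe_pow, Units.val_pow_eq_pow_val, map_pow, Subgroup.coe_one, Units.val_one,
    map_one] at h2
  rw [← hy]
  exact h2

end Pool.Agent.H19CM
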