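import Pool.Agent.H19CM.A
import Pool.Agent.H76K.B

/-!
# The ratio of a unit and its complex conjugate
-/

set_option autoImplicit false
set_option linter.all false

open Polynomial
open scoped Classical IntermediateField

namespace Pool.Agent.H19CM

open Pool.Agent.N874.WG Pool.Agent.H76K

theorem conj_aeval (r : ℂ) (q : ℤ[X]) :
    aeval ((starRingEnd ℂ) r) q = (starRingEnd ℂ) (aeval r q) := by
  have := Polynomial.hom_eval₂ q (algebraMap ℤ ℂ) (starRingEnd ℂ) r
  rw [aeval_def, aeval_def, this]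
  congr 1
  ext a
  simp

theorem hom_aeval {K L : Type} [CommRing K] [CommRing L] (φ : K →+* L) (r : K) (q : ℤ[X]) :
    φ (aeval r q) = aeval (φ r) q := by
  have := Polynomial.hom_eval₂ q (algebraMap ℤ K) φ r
  rw [aeval_def, aeval_def, this]
  congr 1
  exact Subsingleton.elim _ _

/-- an irreducible monic polynomial is the minimal polynomial of its roots -/
theorem dvd_of_root {g : ℤ[X]} (hg : g.Monic) (hi : Irreducible g) {K : Type} [Field K] [CharZero K]
    {α : K} (hα : aeval α g = 0) {Q : ℤ[X]} (hQ : aeval α Q = 0) : g ∣ Q := by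
  have hint : IsIntegral ℤ α := ⟨g, hg, by rw [← aeval_def]; exact hα⟩
  have h1 : minpoly ℤ α ∣ g := minpoly.isIntegrallyClosed_dvd hint hα
  have h2 : minpoly ℤ α ∣ Q := minpoly.isIntegrallyClosed_dvd hint hQ
  have h3 : ¬ IsUnit (minpoly ℤ α) := minpoly.not_isUnit ℤ α
  obtain ⟨q, hq⟩ := h1
  have h4 : IsUnit q := (hi.isUnit_or_isUnit hq).resolve_left h3
  refine Dvd.dvd.trans ?_ h2
  rw [hq]
  exact (Associated.symm ⟨h4.unit, rfl⟩).dvd

/-- the conjugate root -/
theorem star_root {g c : ℤ[X]} {m : ℤ} (hg : g.Monic) (hi : Irreducible g) (h : HasConj g c m)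
    {K : Type} [Field K] [CharZero K] {α : K} (hα : aeval α g = 0) : aeval (aeval α c / (m : K)) g = 0 := by
  have hm := h.1
  have hd : g.natDegree < g.natDegree + 1 := Nat.lt_succ_self _
  have key : ∀ (L : Type) [Field L] [CharZero L] (β : L),
      aeval β (Hm (g.natDegree + 1) c m g) = (m : L) ^ g.natDegree * aeval (aeval β c / (m : L)) g := by
    intro L _ _ β
    have := eval₂_Hm (Int.castRingHom L) (Nat.succ_pos g.natDegree) c hm g hd β
    rw [aeval_def, aeval_def]
    exact this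
  obtain ⟨a, ha⟩ : ∃ a : ℂ, aeval a g = 0 := by
    have hd0 : 0 < g.natDegree := by
      rw [Nat.pos_iff_ne_zero]
      intro h0
      rw [eq_one_of_monic_natDegree_zero hg h0] at hi
      exact not_irreducible_one hi
    obtain ⟨a, ha⟩ := IsAlgClosed.exists_aeval_eq_zero ℂ (g.map (algebraMap ℤ ℚ)) (by
      rw [hg.degree_map, degree_eq_natDegree hg.ne_zero]
      exact_mod_cast hd0.ne')
    exact ⟨a, by rwa [aeval_map_algebraMap] at ha⟩
  have h1 : aeval a (Hm (g.natDegree + 1) c m g) = 0 := by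
    rw [key, (h.2 a ha).2, mul_div_cancel_left₀ _ (Int.cast_ne_zero.2 hm), conj_aeval, ha, map_zero,
      mul_zero]
  obtain ⟨q, hq⟩ := dvd_of_root hg hi ha h1
  have h2 := key K α
  rw [hq, map_mul, hα, zero_mul] at h2
  have h3 : ((m : K)) ^ g.natDegree ≠ 0 := pow_ne_zero _ (Int.cast_ne_zero.2 hm)
  exact (mul_eq_zero.1 h2.symm).resolve_left h3

theorem exists_root {g : ℤ[X]} (hg : g.Monic) (hi : Irreducible g) (K : Type) [Field K] [CharZero K]
    [IsAlgClosed K] : ∃ a : K, aeval a g = 0 := by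
  have hd0 : 0 < g.natDegree := by
    rw [Nat.pos_iff_ne_zero]
    intro h0
    rw [eq_one_of_monic_natDegree_zero hg h0] at hi
    exact not_irreducible_one hi
  obtain ⟨a, ha⟩ := IsAlgClosed.exists_aeval_eq_zero K (g.map (algebraMap ℤ ℚ)) (by
    rw [hg.degree_map, degree_eq_natDegree hg.ne_zero]
    exact_mod_cast hd0.ne')
  exact ⟨a, by rwa [aeval_map_algebraMap] at ha⟩

/-- units and their conjugates differ by roots of unity of bounded order -/
theorem unit_ratio {g c : ℤ[X]} {m : ℤ} (hg : g.Monic) (hi : Irreducible g) (h : HasConj g c m) :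
    ∃ W : ℕ, 0 < W ∧ ∀ u v a : ℤ[X], u * v = 1 + g * a → u.natDegree < g.natDegree →
      g ∣ (C (m ^ (g.natDegree - 1)) * u) ^ W - (Hm g.natDegree c m u) ^ W := by
  have hm := h.1
  obtain ⟨α, hα⟩ := exists_root hg hi ℂ
  have hint : IsIntegral ℚ α := by
    refine IsIntegral.tower_top (R := ℤ) ?_
    exact ⟨g, hg, by rw [← aeval_def]; exact hα⟩
  haveI : FiniteDimensional ℚ ℚ⟮α⟯ := IntermediateField.adjoin.finiteDimensional hint
  haveI : NumberField ℚ⟮α⟯ := ⟨⟩
  obtain ⟨W, hW, hWt⟩ := exists_torsion ℚ⟮α⟯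
  refine ⟨W, hW, fun u v a huv hu => ?_⟩
  set K := ℚ⟮α⟯
  let b : K := IntermediateField.AdjoinSimple.gen ℚ α
  have hb : aeval b g = 0 := by
    apply (algebraMap K ℂ).injective
    rw [hom_aeval, IntermediateField.AdjoinSimple.algebraMap_gen, hα, map_zero]
  have hb' : aeval (aeval b c / (m : K)) g = 0 := star_root hg hi h hb
  set b' : K := aeval b c / (m : K) with hb'def
  have e1 : aeval b u * aeval b v = 1 := by
    rw [← map_mul, huv, map_add, map_one, map_mul, hb, zero_mul, add_zero]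
  have e2 : aeval b' u * aeval b' v = 1 := by
    rw [← map_mul, huv, map_add, map_one, map_mul, hb', zero_mul, add_zero]
  have ib : IsIntegral ℤ b := ⟨g, hg, by rw [← aeval_def]; exact hb⟩
  have ib' : IsIntegral ℤ b' := ⟨g, hg, by rw [← aeval_def]; exact hb'⟩
  have iq : ∀ (x : K) (q : ℤ[X]), IsIntegral ℤ x → IsIntegral ℤ (aeval x q) := by
    intro x q hx
    have h1 : aeval x q ∈ Algebra.adjoin ℤ ({x} : Set K) := aeval_mem_adjoin_singleton ℤ x
    exact (adjoin_le_integralClosure hx) h1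
  have hx : ∃ n : ℕ, 0 < n ∧ (aeval b u * aeval b' v) ^ n = 1 := by
    obtain ⟨n, hn, e⟩ := NumberField.Embeddings.pow_eq_one_of_norm_eq_one K ℂ
      ((iq b u ib).mul (iq b' v ib')) (by
      intro φ
      have hφ : aeval (φ b) g = 0 := by rw [← hom_aeval, hb, map_zero]
      have hc := (h.2 _ hφ).2
      have hφ' : φ b' = (starRingEnd ℂ) (φ b) := by
        rw [hb'def, map_div₀, hom_aeval, hc, map_intCast, mul_div_cancel_left₀ _ (Int.cast_ne_zero.2 hm)]
      rw [map_mul, norm_mul, hom_aeval, hom_aeval, hφ', conj_aeval, RCLike.norm_conj, ← norm_mul,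
        ← hom_aeval, ← hom_aeval, ← map_mul, e1, map_one, NormOneClass.norm_one])
    exact ⟨n, hn, e⟩
  have h1 := hWt _ hx
  have h2 : aeval b u ^ W = aeval b' u ^ W := by
    calc aeval b u ^ W = aeval b u ^ W * (aeval b' u * aeval b' v) ^ W := by rw [e2, one_pow, mul_one]
      _ = (aeval b u * aeval b' v) ^ W * aeval b' u ^ W := by ring
      _ = aeval b' u ^ W := by rw [h1, one_mul]
  have hd0 : 0 < g.natDegree := by omega
  have h3 : aeval b (Hm g.natDegree c m u) = (m : K) ^ (g.natDegree - 1) * aeval b' u := by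
    have := eval₂_Hm (Int.castRingHom K) hd0 c hm u hu b
    rw [aeval_def, aeval_def]
    exact this
  refine dvd_of_root hg hi hb ?_
  have e5 : aeval b (C (m ^ (g.natDegree - 1)) : ℤ[X]) = (m : K) ^ (g.natDegree - 1) := by
    rw [aeval_C]
    simp
  have e6 : aeval b ((C (m ^ (g.natDegree - 1)) * u) ^ W) =
      ((m : K) ^ (g.natDegree - 1) * aeval b u) ^ W := by
    rw [map_pow, map_mul, e5]
  have e7 : aeval b ((Hm g.natDegree c m u) ^ W) =
      ((m : K) ^ (g.natDegree - 1) * aeval b' u) ^ W := by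
    rw [map_pow, h3]
  rw [map_sub, e6, e7, mul_pow, mul_pow, h2, sub_self]

end Pool.Agent.H19CM
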