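import Pool.Agent.H19CM.B

/-!
# Level one points for a component with complex multiplication
-/

set_option autoImplicit false
set_option linter.all false

open Polynomial
open scoped Classical IntermediateField

namespace Pool.Agent.H19CM

open Pool.Agent.N874.WG Pool.Agent.H76K

variable {p : ℕ} [Fact p.Prime]

theorem red_step {d : ℕ} {c : ℤ[X]} {m : ℤ} {g : ℤ[X]} (hg : g.Monic) (hd : g.natDegree = d)
    {W : ℕ}
    (hW : ∀ u v a : ℤ[X], u * v = 1 + g * a → u.natDegree < d →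
      g ∣ (C (m ^ (d - 1)) * u) ^ W - (Hm d c m u) ^ W) {z : ℤ_[p]} {n : ℕ}
    (hd0 : 0 < d) (h : Approx p g z n) :
    toP p g ∣ (C ((m : ℤ_[p]) ^ (d - 1)) * ((C z - X) ^ n %ₘ toP p g)) ^ W -
      (Hm d c m ((C z - X) ^ n %ₘ toP p g)) ^ W := by
  have hgm : (toP p g).Monic := hg.map _
  rw [← modByMonic_eq_zero_iff_dvd hgm]
  ext i
  rw [coeff_zero, ← PadicInt.ext_of_toZModPow]
  intro k
  obtain ⟨u, ⟨v, a, huv⟩, b', c', hk⟩ := h k
  have hmod : toP p u %ₘ toP p g = toP p (u %ₘ g) := (Polynomial.map_modByMonic _ hg).symm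
  set r := (C z - X) ^ n %ₘ toP p g with hr
  have hr1 : r = toP p (u %ₘ g) + C ((p : ℤ_[p]) ^ k) * (c' %ₘ toP p g) := by
    rw [hr, hk, add_modByMonic, add_modByMonic, self_mul_modByMonic hgm, add_zero, hmod,
      ← smul_eq_C_mul, ← smul_eq_C_mul, smul_modByMonic]
  set u' := u %ₘ g with hu'
  have hu'' : u' + g * (u /ₘ g) = u := modByMonic_add_div u g
  have hunit : ∃ a' : ℤ[X], u' * v = 1 + g * a' := by
    refine ⟨a - (u /ₘ g) * v, ?_⟩
    linear_combination huv + v * hu''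
  obtain ⟨a', ha'⟩ := hunit
  have hdeg : u'.natDegree < d := by
    rw [← hd]
    refine natDegree_modByMonic_lt u hg ?_
    intro h1
    rw [h1, natDegree_one] at hd
    omega
  obtain ⟨y, hy⟩ := hW u' v a' ha' hdeg
  have hy' : (C ((m : ℤ_[p]) ^ (d - 1)) * toP p u') ^ W - (Hm d c m (toP p u')) ^ W =
      toP p g * toP p y := by
    have := congrArg (fun P : ℤ[X] => P.map (Int.castRingHom ℤ_[p])) hy
    simp only [Polynomial.map_sub, Polynomial.map_pow, Polynomial.map_mul, Hm_map, map_C] at this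
    rw [← this]
    simp
  have hH : Hm d c m r = Hm d c m (toP p u') + C ((p : ℤ_[p]) ^ k) * Hm d c m (c' %ₘ toP p g) := by
    rw [hr1, Hm_add, Hm_C_mul]
  obtain ⟨s1, hs1⟩ := sub_dvd_pow_sub_pow (C ((m : ℤ_[p]) ^ (d - 1)) * r)
    (C ((m : ℤ_[p]) ^ (d - 1)) * toP p u') W
  obtain ⟨s2, hs2⟩ := sub_dvd_pow_sub_pow (Hm d c m r) (Hm d c m (toP p u')) W
  have key : (C ((m : ℤ_[p]) ^ (d - 1)) * r) ^ W - (Hm d c m r) ^ W = toP p g * toP p y +
      ((p : ℤ_[p]) ^ k) • (C ((m : ℤ_[p]) ^ (d - 1)) * (c' %ₘ toP p g) * s1 -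
        Hm d c m (c' %ₘ toP p g) * s2) := by
    rw [smul_eq_C_mul]
    have e1 : C ((m : ℤ_[p]) ^ (d - 1)) * r - C ((m : ℤ_[p]) ^ (d - 1)) * toP p u' =
        C ((p : ℤ_[p]) ^ k) * (C ((m : ℤ_[p]) ^ (d - 1)) * (c' %ₘ toP p g)) := by
      rw [hr1]
      ring
    have e2 : Hm d c m r - Hm d c m (toP p u') =
        C ((p : ℤ_[p]) ^ k) * Hm d c m (c' %ₘ toP p g) := by
      rw [hH]
      ring
    rw [e1] at hs1
    rw [e2] at hs2
    linear_combination hs1 - hs2 + hy'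
  rw [key, add_modByMonic, self_mul_modByMonic hgm, zero_add, smul_modByMonic, coeff_smul,
    smul_eq_mul, map_mul, map_pow, map_natCast, map_zero]
  have : ((p : ZMod (p ^ k)) ^ k) = 0 := by
    rw [← Nat.cast_pow, ZMod.natCast_self]
  rw [this, zero_mul]

/-- the relation between the distances from a root and its conjugate -/
theorem dist_pow {g c : ℤ[X]} {m : ℤ} (hg : g.Monic) (hi : Irreducible g) (hc : HasConj g c m) :
    ∃ W : ℕ, 0 < W ∧ ∀ {z : ℤ_[p]} {n : ℕ}, Approx p g z n → ∀ {K : Type} [Field K] [CharZero K]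
      (ψ : ℤ_[p] →+* K) (β : K), aeval β g = 0 →
      (ψ z - β) ^ (n * W) = (ψ z - aeval β c / (m : K)) ^ (n * W) := by
  obtain ⟨W, hW, hWu⟩ := unit_ratio hg hi hc
  refine ⟨W, hW, ?_⟩
  intro z n h K _ _ ψ β hβ
  have hm := hc.1
  have hd0 : 0 < g.natDegree := by
    rw [Nat.pos_iff_ne_zero]
    intro h0
    rw [eq_one_of_monic_natDegree_zero hg h0] at hi
    exact not_irreducible_one hi
  have hgm : (toP p g).Monic := hg.map _
  obtain ⟨w, hw⟩ := red_step hg rfl hWu hd0 h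
  set r := (C z - X) ^ n %ₘ toP p g with hr
  have hev : ∀ γ : K, aeval γ g = 0 → eval₂ ψ γ (toP p g) = 0 := by
    intro γ hγ
    rw [toP, eval₂_map]
    rw [aeval_def] at hγ
    rw [← hγ]
    congr 1
    exact Subsingleton.elim _ _
  have hr' : r + toP p g * ((C z - X) ^ n /ₘ toP p g) = (C z - X) ^ n := modByMonic_add_div _ _
  have hrv : ∀ γ : K, aeval γ g = 0 → eval₂ ψ γ r = (ψ z - γ) ^ n := by
    intro γ hγ
    have h1 := congrArg (eval₂ ψ γ) hr'
    rw [eval₂_add, eval₂_mul, hev γ hγ, zero_mul, add_zero, eval₂_pow, eval₂_sub, eval₂_C,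
      eval₂_X] at h1
    exact h1
  have hrd : r.natDegree < g.natDegree := by
    have h1 : (toP p g).natDegree = g.natDegree := hg.natDegree_map _
    rw [← h1]
    refine natDegree_modByMonic_lt _ hgm ?_
    intro h2
    rw [h2, natDegree_one] at h1
    omega
  have hβ' := star_root hg hi hc hβ
  have h2 := congrArg (eval₂ ψ β) hw
  rw [eval₂_mul, hev β hβ, zero_mul, eval₂_sub, eval₂_pow, eval₂_pow, eval₂_mul, eval₂_C,
    eval₂_Hm ψ hd0 c hm r hrd β, hrv β hβ, hrv _ hβ', sub_eq_zero, map_pow, map_intCast, mul_pow,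
    mul_pow, ← pow_mul (ψ z - β), ← pow_mul (ψ z - aeval β c / (m : K))] at h2
  have h3 : (((m : K) ^ (g.natDegree - 1)) ^ W) ≠ 0 :=
    pow_ne_zero _ (pow_ne_zero _ (Int.cast_ne_zero.2 hm))
  exact mul_left_cancel₀ h3 h2

end Pool.Agent.H19CM
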