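import Pool.Agent.H19CM.C

/-!
# The complex conjugates of a point of level one are real
-/

set_option autoImplicit false
set_option linter.all false

open Polynomial
open scoped Classical IntermediateField

namespace Pool.Agent.H19CM

open Pool.Agent.N874.WG Pool.Agent.H76K

variable {p : ℕ} [Fact p.Prime]

theorem pos_natDegree {g : ℤ[X]} (hg : g.Monic) (hi : Irreducible g) : 0 < g.natDegree := by
  rw [Nat.pos_iff_ne_zero]
  intro h0
  rw [eq_one_of_monic_natDegree_zero hg h0] at hi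
  exact not_irreducible_one hi

theorem real_of_dist {w α : ℂ} (hα : α.im ≠ 0) {N : ℕ} (hN : 0 < N)
    (h : (w - α) ^ N = (w - (starRingEnd ℂ) α) ^ N) : w.im = 0 := by
  have h1 : ‖w - α‖ ^ N = ‖w - (starRingEnd ℂ) α‖ ^ N := by
    rw [← norm_pow, ← norm_pow, h]
  have h2 : ‖w - α‖ = ‖w - (starRingEnd ℂ) α‖ :=
    (pow_left_inj₀ (norm_nonneg _) (norm_nonneg _) hN.ne').1 h1
  have h3 : Complex.normSq (w - α) = Complex.normSq (w - (starRingEnd ℂ) α) := by
    rw [Complex.normSq_eq_norm_sq, Complex.normSq_eq_norm_sq, h2]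
  rw [Complex.normSq_apply, Complex.normSq_apply] at h3
  simp only [Complex.sub_re, Complex.sub_im, Complex.conj_re, Complex.conj_im] at h3
  have h4 : w.im * α.im = 0 := by nlinarith
  exact (mul_eq_zero.1 h4).resolve_right hα

theorem exists_emb (Ω : Type) [Field Ω] [CharZero Ω] {ζ β : Ω} (hζ : IsIntegral ℤ ζ)
    (hβ : IsIntegral ℤ β) {w : ℂ} (hw : Cj ζ w) :
    ∃ (E : Type) (_ : Field E) (_ : CharZero E) (ι : E →+* Ω) (φ : E →+* ℂ) (zE bE : E),
      ι zE = ζ ∧ ι bE = β ∧ φ zE = w := by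
  let zE : algebraicClosure ℚ Ω := ⟨ζ, mem_algebraicClosure_iff.2 hζ.tower_top.isAlgebraic⟩
  let bE : algebraicClosure ℚ Ω := ⟨β, mem_algebraicClosure_iff.2 hβ.tower_top.isAlgebraic⟩
  have hmin : aeval w (minpoly ℚ zE) = 0 := by
    have e1 : minpoly ℚ zE = minpoly ℚ ζ := by
      have := minpoly.algebraMap_eq (A := ℚ) (algebraMap (algebraicClosure ℚ Ω) Ω).injective zE
      exact this.symm
    rw [e1, minpoly.isIntegrallyClosed_eq_field_fractions' ℚ hζ, aeval_map_algebraMap]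
    exact (hw _).1 (minpoly.aeval _ _)
  haveI : Algebra.IsAlgebraic ℚ (algebraicClosure ℚ Ω) := by
    have h5 := algebraicClosure.isAlgebraic ℚ Ω
    convert h5 using 1
    · rfl
    · exact Subsingleton.elim _ _
  obtain ⟨φ, hφ⟩ := IntermediateField.exists_algHom_of_splits_of_aeval (F := ℚ)
    (E := algebraicClosure ℚ Ω) (K := ℂ)
    (x := zE) (y := w)
    (fun s => ⟨(Algebra.IsAlgebraic.isAlgebraic s).isIntegral, IsAlgClosed.splits _⟩) hmin
  exact ⟨algebraicClosure ℚ Ω, inferInstance, inferInstance, algebraMap (algebraicClosure ℚ Ω) Ω,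
    (φ : algebraicClosure ℚ Ω →+* ℂ), zE, bE, rfl, rfl, hφ⟩

theorem level_realK {Ω : Type} [Field Ω] [CharZero Ω] [IsAlgClosed Ω] (ψ : ℤ_[p] →+* Ω)
    (hψ : Function.Injective ψ) {g c : ℤ[X]} {m : ℤ} (hg : g.Monic) (hi : Irreducible g)
    (hc : HasConj g c m)
    {z : ℤ_[p]} {n : ℕ} (hn : 0 < n) (h : Approx p g z n) {w : ℂ} (hw : Cj z w) : w.im = 0 := by
  obtain ⟨W, hW, hd⟩ := dist_pow (p := p) hg hi hc
  have hm := hc.1
  have hpos := pos_natDegree hg hi
  obtain ⟨β, hβ⟩ := exists_root hg hi Ω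
  have hzt : aeval (ψ z) g ^ (2 * n) = 1 := by
    rw [← hom_aeval, ← map_pow, tor_of hg (dvd_refl g) h, map_one]
  have hzi : IsIntegral ℤ (ψ z) := int_of_tor hg hpos (by omega) hzt
  have hβi : IsIntegral ℤ β := ⟨g, hg, by rw [← aeval_def]; exact hβ⟩
  have hcj : Cj (ψ z) w := by
    intro Q
    rw [← hw Q, ← hom_aeval]
    exact map_eq_zero_iff ψ hψ
  obtain ⟨E, _, _, ι, φ, zE, bE, hz, hb, hφ⟩ := exists_emb Ω hzi hβi hcj
  have h1 : aeval bE g = 0 := by
    apply ι.injective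
    rw [hom_aeval, hb, hβ, map_zero]
  have hroot : aeval (φ bE) g = 0 := by
    rw [← hom_aeval, h1, map_zero]
  have h2 : (zE - bE) ^ (n * W) = (zE - aeval bE c / (m : E)) ^ (n * W) := by
    apply ι.injective
    rw [map_pow, map_pow, map_sub, map_sub, map_div₀, hom_aeval, hz, hb, map_intCast]
    exact hd h ψ β hβ
  have h3 := congrArg φ h2
  rw [map_pow, map_pow, map_sub, map_sub, map_div₀, hom_aeval, hφ, map_intCast, (hc.2 _ hroot).2,
    mul_div_cancel_left₀ _ (Int.cast_ne_zero.2 hm)] at h3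
  exact real_of_dist (hc.2 _ hroot).1 (Nat.mul_pos hn hW) h3

theorem level_real {g c : ℤ[X]} {m : ℤ} (hg : g.Monic) (hi : Irreducible g) (hc : HasConj g c m)
    {z : ℤ_[p]} {n : ℕ} (hn : 0 < n) (h : Approx p g z n) {w : ℂ} (hw : Cj z w) : w.im = 0 := by
  refine level_realK ((algebraMap ℚ_[p] (AlgebraicClosure ℚ_[p])).comp PadicInt.Coe.ringHom) ?_
    hg hi hc hn h hw
  apply Function.Injective.comp (algebraMap ℚ_[p] (AlgebraicClosure ℚ_[p])).injective
  exact fun x y hxy => PadicInt.ext hxy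

theorem re_aeval {w : ℂ} (hw : w.im = 0) (q : ℤ[X]) : aeval w q = ((aeval w.re q : ℝ) : ℂ) := by
  have e : w = (w.re : ℂ) := Complex.ext rfl (by simp [hw])
  conv_lhs => rw [e]
  exact (hom_aeval Complex.ofRealHom w.re q).symm

/-- a monic polynomial without real roots is positive on the real line -/
theorem pos_of_no_root {g : ℤ[X]} (hg : g.Monic) (hpos : 0 < g.natDegree)
    (h : ∀ α : ℂ, aeval α g = 0 → α.im ≠ 0) (x : ℝ) : 0 < aeval x g := by
  by_contra hneg
  have hneg : aeval x g ≤ 0 := not_lt.1 hneg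
  let P : ℝ[X] := g.map (algebraMap ℤ ℝ)
  have hP : ∀ y : ℝ, P.eval y = aeval y g := fun y => eval_map_algebraMap _ _
  have hPm : P.Monic := hg.map _
  have hPd : 0 < P.degree := by
    rw [← natDegree_pos_iff_degree_pos, hg.natDegree_map]
    exact hpos
  have ht := P.tendsto_atTop_of_leadingCoeff_nonneg hPd (by rw [hPm.leadingCoeff]; norm_num)
  obtain ⟨y, hy1, hy2⟩ := ((ht.eventually_gt_atTop 0).and (Filter.eventually_ge_atTop x)).exists
  obtain ⟨t, -, ht0⟩ := intermediate_value_Icc hy2 (P.continuous.continuousOn)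
    (show (0 : ℝ) ∈ Set.Icc (P.eval x) (P.eval y) from ⟨by rw [hP]; exact hneg, hy1.le⟩)
  have h1 : aeval (t : ℂ) g = 0 := by
    have := hom_aeval Complex.ofRealHom t g
    have h2 : (aeval t g : ℝ) = 0 := by rw [← hP]; exact ht0
    rw [h2, map_zero] at this
    exact this.symm
  exact h _ h1 (by simp)

theorem level_main {f g c : ℤ[X]} {m : ℤ} (hg : g.Monic) (hi : Irreducible g)
    (hc : HasConj g c m) (hgf : g ∣ f) {z : ℤ_[p]} {n : ℕ} (hn : 0 < n) (h : Approx p f z n) :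
    (∀ w : ℂ, Cj z w → w.im = 0) ∧ (∃ w : ℂ, Cj z w) ∧
    (∀ q : ℤ[X], q.Monic → q ∣ f → aeval z q = 1 ∨ aeval z q = -1) ∧ aeval z g = 1 := by
  have hpos := pos_natDegree hg hi
  have hag : Approx p g z n := by
    obtain ⟨q, rfl⟩ := hgf
    exact h.dvd
  have hreal : ∀ w : ℂ, Cj z w → w.im = 0 := fun w hw => level_real hg hi hc hn hag hw
  have hzt : aeval (z : ℚ_[p]) g ^ (2 * n) = 1 := by
    rw [← coe_aeval, ← PadicInt.coe_pow, tor_of hg (dvd_refl g) hag, PadicInt.coe_one]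
  obtain ⟨w, hw⟩ := exists_cj (int_of_tor hg hpos (by omega) hzt)
  have hw' : Cj z w := cj_coe.1 hw
  have him := hreal w hw'
  have hpm : ∀ q : ℤ[X], q.Monic → q ∣ f → aeval w.re q = 1 ∨ aeval w.re q = -1 := by
    intro q hq hqf
    have h1 := hw'.tor (tor_of hq hqf h)
    rw [re_aeval him q] at h1
    have h2 : (aeval w.re q : ℝ) ^ (2 * n) = 1 := by exact_mod_cast h1
    have h3 := (pow_eq_one_iff_of_ne_zero (by omega : 2 * n ≠ 0)).1 h2
    exact h3.imp id fun t => t.1
  have hback : ∀ (q : ℤ[X]) (e : ℤ), aeval w.re q = e → aeval z q = e := by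
    intro q e hqe
    have h1 : aeval w (q - C e) = 0 := by
      rw [map_sub, re_aeval him q, hqe, aeval_C]
      simp
    have h2 := (hw' _).2 h1
    rw [map_sub, aeval_C, sub_eq_zero] at h2
    rw [h2]
    simp
  refine ⟨hreal, ⟨w, hw'⟩, fun q hq hqf => ?_, ?_⟩
  · rcases hpm q hq hqf with h1 | h1
    · left
      have := hback q 1 (by rw [h1]; simp)
      simpa using this
    · right
      have := hback q (-1) (by rw [h1]; simp)
      simpa using this
  · have h1 := pos_of_no_root hg hpos (fun α hα => (hc.2 α hα).1) w.re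
    rcases hpm g hg hgf with h2 | h2
    · have := hback g 1 (by rw [h2]; simp)
      simpa using this
    · rw [h2] at h1
      norm_num at h1

end Pool.Agent.H19CM
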