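import Pool.Agent.H19CM.D

/-!
# Components `h(X² + bX)` and cyclotomic components
-/

set_option autoImplicit false
set_option linter.all false

open Polynomial
open scoped Classical IntermediateField

namespace Pool.Agent.H19CM

open Pool.Agent.N874.WG Pool.Agent.H76K

variable {p : ℕ} [Fact p.Prime]

/-- an integer polynomial with small values at all conjugates vanishes -/
theorem small_zero {R : Type} [CommRing R] {z : R} {w : ℂ} (hw : Cj z w) (hwi : IsIntegral ℤ w)
    (T : ℤ[X]) (hT : ∀ w' : ℂ, Cj z w' → ‖aeval w' T‖ < 1) : aeval z T = 0 := by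
  have hint : IsIntegral ℚ w := hwi.tower_top
  haveI : FiniteDimensional ℚ ℚ⟮w⟯ := IntermediateField.adjoin.finiteDimensional hint
  haveI : NumberField ℚ⟮w⟯ := ⟨⟩
  set K := ℚ⟮w⟯
  let b : K := IntermediateField.AdjoinSimple.gen ℚ w
  have hb : ∀ Q : ℤ[X], algebraMap K ℂ (aeval b Q) = aeval w Q := by
    intro Q
    rw [hom_aeval, IntermediateField.AdjoinSimple.algebraMap_gen]
  have hbw : ∀ Q : ℤ[X], aeval b Q = 0 ↔ aeval w Q = 0 := by
    intro Q
    rw [← hb Q]
    exact (map_eq_zero_iff _ (algebraMap K ℂ).injective).symm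
  have hbi : IsIntegral ℤ b := by
    refine ⟨minpoly ℤ w, minpoly.monic hwi, ?_⟩
    rw [← aeval_def]
    exact (hbw _).2 (minpoly.aeval _ _)
  have h0 : aeval b T = 0 := by
    by_contra hne
    have hTi : IsIntegral ℤ (aeval b T) := by
      have h1 : aeval b T ∈ Algebra.adjoin ℤ ({b} : Set K) := aeval_mem_adjoin_singleton ℤ b
      exact (adjoin_le_integralClosure hbi) h1
    have hs : ∀ φ : K →+* ℂ, ‖φ (aeval b T)‖ < 1 := by
      intro φ
      rw [hom_aeval]
      refine hT _ fun Q => ?_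
      rw [hw Q, ← hbw Q, ← hom_aeval]
      exact (map_eq_zero_iff φ φ.injective).symm
    obtain ⟨n, hn, e⟩ := NumberField.Embeddings.pow_eq_one_of_norm_le_one K ℂ hne hTi
      (fun φ => (hs φ).le)
    have h2 := hs (algebraMap K ℂ)
    have h3 : ‖algebraMap K ℂ (aeval b T)‖ ^ n = 1 := by
      rw [← norm_pow, ← map_pow, e, map_one]
      simp
    have h4 := pow_lt_one₀ (norm_nonneg _) h2 hn.ne'
    rw [h3] at h4
    exact lt_irrefl _ h4
  exact (hw T).2 ((hbw T).1 h0)

theorem prod_le (s : Multiset ℂ) (a y : ℝ) (h0 : ∀ r ∈ s, 0 < ‖(a : ℂ) - r‖)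
    (hs : ∀ r ∈ s, ‖(a : ℂ) - r‖ < ‖(y : ℂ) - r‖) :
    0 < (s.map fun r => ‖(a : ℂ) - r‖).prod ∧
    (s.map fun r => ‖(a : ℂ) - r‖).prod ≤ (s.map fun r => ‖(y : ℂ) - r‖).prod ∧
    (0 < Multiset.card s →
      (s.map fun r => ‖(a : ℂ) - r‖).prod < (s.map fun r => ‖(y : ℂ) - r‖).prod) := by
  induction s using Multiset.induction_on with
  | empty => simp
  | cons r s ih =>
    obtain ⟨h1, h2, -⟩ := ih (fun r' hr' => h0 r' (Multiset.mem_cons_of_mem hr'))
      (fun r' hr' => hs r' (Multiset.mem_cons_of_mem hr'))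
    have hr := hs r (Multiset.mem_cons_self r s)
    have hr0 := h0 r (Multiset.mem_cons_self r s)
    rw [Multiset.map_cons, Multiset.prod_cons, Multiset.map_cons, Multiset.prod_cons]
    have h4 : ‖(a : ℂ) - r‖ * (s.map fun r => ‖(a : ℂ) - r‖).prod <
        ‖(y : ℂ) - r‖ * (s.map fun r => ‖(y : ℂ) - r‖).prod := by
      calc ‖(a : ℂ) - r‖ * (s.map fun r => ‖(a : ℂ) - r‖).prod <
            ‖(y : ℂ) - r‖ * (s.map fun r => ‖(a : ℂ) - r‖).prod :=
            mul_lt_mul_of_pos_right hr h1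
        _ ≤ ‖(y : ℂ) - r‖ * (s.map fun r => ‖(y : ℂ) - r‖).prod :=
            mul_le_mul_of_nonneg_left h2 (norm_nonneg _)
    exact ⟨mul_pos hr0 h1, h4.le, fun _ => h4⟩

theorem norm_val {g : ℤ[X]} (hg : g.Monic) (y : ℝ) :
    |aeval y g| = ((g.map (algebraMap ℤ ℂ)).roots.map fun r => ‖(y : ℂ) - r‖).prod := by
  set P : ℂ[X] := g.map (algebraMap ℤ ℂ) with hP
  have hPm : P.Monic := hg.map _
  have hPs : P.Splits := IsAlgClosed.splits P
  have h1 : P = (P.roots.map fun r => X - C r).prod := hPs.eq_prod_roots_of_monic hPm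
  have h2 : P.eval (y : ℂ) = (P.roots.map fun r => (y : ℂ) - r).prod := by
    conv_lhs => rw [h1]
    rw [eval_multiset_prod, Multiset.map_map]
    congr 1
    refine Multiset.map_congr rfl fun r _ => ?_
    simp
  have h3 : P.eval (y : ℂ) = ((aeval y g : ℝ) : ℂ) := by
    rw [hP, eval_map_algebraMap]
    exact (hom_aeval Complex.ofRealHom y g).symm
  have h4 : ‖P.eval (y : ℂ)‖ = |aeval y g| := by
    rw [h3, Complex.norm_real, Real.norm_eq_abs]
  rw [← h4, h2, ← normHom_apply, map_multiset_prod, Multiset.map_map]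
  rfl

/-- the value of a polynomial without real roots increases when one moves away from the roots -/
theorem val_lt {g : ℤ[X]} (hg : g.Monic) (hpos : 0 < g.natDegree)
    (hr : ∀ r : ℂ, aeval r g = 0 → r.im ≠ 0) {x : ℤ} {y : ℝ}
    (hxy : ∀ r : ℂ, aeval r g = 0 → 0 ≤ (y - x) * (x - r.re)) (hne : y ≠ x) :
    (1 : ℝ) < aeval y g := by
  have hPm : (g.map (algebraMap ℤ ℂ)).Monic := hg.map _
  have hroots : ∀ r ∈ (g.map (algebraMap ℤ ℂ)).roots, aeval r g = 0 := by
    intro r hr'
    rw [mem_roots hPm.ne_zero, IsRoot.def, eval_map_algebraMap] at hr'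
    exact hr'
  have hcard : Multiset.card (g.map (algebraMap ℤ ℂ)).roots = g.natDegree := by
    rw [← (IsAlgClosed.splits (g.map (algebraMap ℤ ℂ))).natDegree_eq_card_roots, hg.natDegree_map]
  have hlt : |aeval (x : ℝ) g| < |aeval y g| := by
    rw [norm_val hg, norm_val hg]
    refine (prod_le _ _ _ ?_ ?_).2.2 (by rw [hcard]; exact hpos)
    · intro r hr'
      rw [norm_pos_iff, sub_ne_zero]
      intro h1
      apply hr r (hroots r hr')
      rw [← h1]
      simp
    · intro r hr'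
      have h1 := hxy r (hroots r hr')
      have h2 : Complex.normSq (((x : ℝ) : ℂ) - r) < Complex.normSq ((y : ℂ) - r) := by
        rw [Complex.normSq_apply, Complex.normSq_apply]
        simp only [Complex.sub_re, Complex.sub_im, Complex.ofReal_re, Complex.ofReal_im]
        have h3 : 0 < (y - x) ^ 2 := by
          have : y - x ≠ 0 := sub_ne_zero.2 hne
          positivity
        nlinarith
      rw [Complex.normSq_eq_norm_sq, Complex.normSq_eq_norm_sq] at h2
      exact lt_of_pow_lt_pow_left₀ 2 (norm_nonneg _) h2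
  have hx := pos_of_no_root hg hpos hr (x : ℝ)
  have hy := pos_of_no_root hg hpos hr y
  rw [abs_of_pos hx, abs_of_pos hy] at hlt
  have e : aeval (x : ℝ) g = ((g.eval x : ℤ) : ℝ) := by
    have := hom_aeval (Int.castRingHom ℝ) x g
    rw [eq_intCast, eq_intCast] at this
    rw [← this]
    congr 1
  rw [e] at hx hlt
  have h1 : 0 < g.eval x := by exact_mod_cast hx
  have h2 : (1 : ℝ) ≤ ((g.eval x : ℤ) : ℝ) := by exact_mod_cast h1
  linarith

/-- the roots of `g` lie in a vertical strip of width two around an integer -/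
theorem strip_int {f g c : ℤ[X]} {m : ℤ} (hg : g.Monic) (hi : Irreducible g)
    (hc : HasConj g c m) (hgf : g ∣ f) {a : ℤ} (ha : ∀ r : ℂ, aeval r g = 0 → |r.re - a| ≤ 1)
    {z : ℤ_[p]} {n : ℕ} (hn : 0 < n) (h : Approx p f z n) : z = a ∨ z = a - 1 ∨ z = a + 1 := by
  obtain ⟨hreal, ⟨w, hw⟩, hpm, hg1⟩ := level_main hg hi hc hgf hn h
  have hpos := pos_natDegree hg hi
  have hnr : ∀ r : ℂ, aeval r g = 0 → r.im ≠ 0 := fun r hr => (hc.2 r hr).1
  have hone : ∀ w' : ℂ, Cj z w' → aeval w' g = 1 := by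
    intro w' hw'
    have h5 := (hw' (g - 1)).1 (by rw [map_sub, hg1, map_one, sub_self])
    rwa [map_sub, map_one, sub_eq_zero] at h5
  have hconj : ∀ w' : ℂ, Cj z w' → w'.im = 0 ∧ |w'.re - a| ≤ 1 := by
    intro w' hw'
    have him := hreal w' hw'
    have h1 : (aeval w'.re g : ℝ) = 1 := by
      have h2 := hone w' hw'
      rw [re_aeval him] at h2
      exact_mod_cast h2
    refine ⟨him, ?_⟩
    rw [abs_le]
    constructor
    · by_contra hlt
      have hlt := not_le.1 hlt
      have h3 := val_lt hg hpos hnr (x := a - 1) (y := w'.re) (fun r hr => by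
        have h4 := (abs_le.1 (ha r hr)).1
        push_cast
        nlinarith) (by push_cast; intro h0; linarith)
      rw [h1] at h3
      exact lt_irrefl _ h3
    · by_contra hlt
      have hlt := not_le.1 hlt
      have h3 := val_lt hg hpos hnr (x := a + 1) (y := w'.re) (fun r hr => by
        have h4 := (abs_le.1 (ha r hr)).2
        push_cast
        nlinarith) (by push_cast; intro h0; linarith)
      rw [h1] at h3
      exact lt_irrefl _ h3
  have hwi : IsIntegral ℤ w := by
    refine int_of_tor hg hpos one_pos ?_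
    rw [hone w hw, one_pow]
  have hTv : ∀ {K : Type} [CommRing K] (x : K), aeval x ((X - C a) * ((X - C a) ^ 2 - 1) : ℤ[X]) =
      (x - a) * ((x - a) ^ 2 - 1) := by
    intro K _ x
    simp
  have hT := small_zero hw hwi ((X - C a) * ((X - C a) ^ 2 - 1)) (by
    intro w' hw'
    obtain ⟨him, hle⟩ := hconj w' hw'
    have e : aeval w' ((X - C a) * ((X - C a) ^ 2 - 1) : ℤ[X]) =
        (((w'.re - a) * ((w'.re - a) ^ 2 - 1) : ℝ) : ℂ) := by
      have e0 : w' = (w'.re : ℂ) := Complex.ext rfl (by simp [him])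
      conv_lhs => rw [e0]
      rw [hTv]
      push_cast
      ring
    rw [e, Complex.norm_real, Real.norm_eq_abs, abs_lt]
    obtain ⟨h1, h2⟩ := abs_le.1 hle
    set t := w'.re - a
    constructor
    · nlinarith [sq_nonneg (t - 1), sq_nonneg t, mul_nonneg (by linarith : 0 ≤ t + 1) (sq_nonneg (2 * t - 1))]
    · nlinarith [sq_nonneg (t + 1), sq_nonneg t, mul_nonneg (by linarith : 0 ≤ 1 - t) (sq_nonneg (2 * t + 1))])
  rw [hTv, mul_eq_zero] at hT
  rcases hT with h1 | h1
  · left
    linear_combination h1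
  · right
    have h2 : (z - a - 1) * (z - a + 1) = 0 := by
      linear_combination h1
    rcases mul_eq_zero.1 h2 with h3 | h3
    · right
      linear_combination h3
    · left
      linear_combination h3

/-- the components `h(X² + bX)` -/
theorem comp_conj {h : ℤ[X]} (hh : h.Monic) (hd : 0 < h.natDegree) (b : ℤ)
    (hr : ∀ r : ℂ, aeval r h = 0 → r.im = 0 ∧ 4 * r.re < -(b : ℝ) ^ 2) :
    ∃ g : ℤ[X], g.Monic ∧ Irreducible g ∧ g ∣ h.comp (X ^ 2 + C b * X) ∧
      HasConj g (-C b - X) 1 ∧ ∀ α : ℂ, aeval α g = 0 → α.re = -(b : ℝ) / 2 := by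
  set L : ℤ[X] := X ^ 2 + C b * X with hL
  have hLd : L.natDegree = 2 := by
    rw [hL]
    compute_degree!
  have hLm : L.Monic := by
    rw [hL]
    monicity!
  have hLv : ∀ {K : Type} [CommRing K] (x : K), aeval x L = x ^ 2 + b * x := by
    intro K _ x
    rw [hL, map_add, map_pow, map_mul, aeval_X, aeval_C]
    simp
  set G := h.comp L with hG
  have hGm : G.Monic := hh.comp hLm (by rw [hLd]; norm_num)
  have hGd : 0 < G.natDegree := by
    rw [hG, natDegree_comp, hLd]
    omega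
  obtain ⟨α₀, hα₀⟩ : ∃ a : ℂ, aeval a G = 0 := by
    obtain ⟨a, ha⟩ := IsAlgClosed.exists_aeval_eq_zero ℂ (G.map (algebraMap ℤ ℚ)) (by
      rw [hGm.degree_map, degree_eq_natDegree hGm.ne_zero]
      exact_mod_cast hGd.ne')
    exact ⟨a, by rwa [aeval_map_algebraMap] at ha⟩
  have hαi : IsIntegral ℤ α₀ := ⟨G, hGm, by rw [← aeval_def]; exact hα₀⟩
  have hgG : minpoly ℤ α₀ ∣ G := minpoly.isIntegrallyClosed_dvd hαi hα₀
  have key : ∀ α : ℂ, aeval α (minpoly ℤ α₀) = 0 → α.im ≠ 0 ∧ 2 * α.re + b = 0 := by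
    intro α hα
    have h1 : aeval (α ^ 2 + b * α) h = 0 := by
      obtain ⟨q, hq⟩ := hgG
      have h2 : aeval α G = 0 := by rw [hq, map_mul, hα, zero_mul]
      rw [hG, aeval_comp, hLv] at h2
      exact h2
    obtain ⟨h3, h4⟩ := hr _ h1
    simp only [sq, Complex.add_im, Complex.mul_im, Complex.intCast_im, Complex.intCast_re,
      Complex.add_re, Complex.mul_re] at h3 h4
    have h5 : α.im ≠ 0 := by
      intro h0
      rw [h0] at h4
      nlinarith [sq_nonneg (2 * α.re + b)]
    have h6 : 2 * α.re + b = 0 := by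
      have : (2 * α.re + b) * α.im = 0 := by linarith
      exact (mul_eq_zero.1 this).resolve_right h5
    exact ⟨h5, h6⟩
  refine ⟨minpoly ℤ α₀, minpoly.monic hαi, minpoly.irreducible hαi, hgG,
    ⟨one_ne_zero, fun α hα => ?_⟩, fun α hα => ?_⟩
  · obtain ⟨h5, h6⟩ := key α hα
    refine ⟨h5, ?_⟩
    rw [map_sub, map_neg, aeval_C, aeval_X]
    apply Complex.ext
    · simp
      linarith
    · simp
  · have := (key α hα).2
    linarith

/-- cyclotomic components -/
theorem cyc_conj {m : ℕ} (hm : 3 ≤ m) : HasConj (cyclotomic m ℤ) (X ^ (m - 1)) 1 ∧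
    ∀ α : ℂ, aeval α (cyclotomic m ℤ) = 0 → |α.re| ≤ 1 := by
  have hm0 : 0 < m := by omega
  have hp : ∀ α : ℂ, aeval α (cyclotomic m ℤ) = 0 → IsPrimitiveRoot α m := by
    intro α hα
    haveI : NeZero (m : ℂ) := ⟨by exact_mod_cast hm0.ne'⟩
    rw [← isRoot_cyclotomic_iff, IsRoot.def, ← map_cyclotomic_int, eval_map]
    rw [aeval_def] at hα
    exact hα
  refine ⟨⟨one_ne_zero, fun α hα => ?_⟩, fun α hα => ?_⟩
  · have hprim := hp α hα
    have hn1 : ‖α‖ = 1 := Complex.norm_eq_one_of_pow_eq_one hprim.pow_eq_one hm0.ne'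
    have hα0 : α ≠ 0 := hprim.ne_zero hm0.ne'
    have hinv : α * (starRingEnd ℂ) α = 1 := by
      rw [Complex.mul_conj, Complex.normSq_eq_norm_sq, hn1]
      norm_num
    constructor
    · intro h0
      have h1 : (starRingEnd ℂ) α = α := Complex.conj_eq_iff_im.2 h0
      rw [h1, ← sq] at hinv
      have h2 := hprim.dvd_of_pow_eq_one 2 hinv
      have := Nat.le_of_dvd (by norm_num) h2
      omega
    · rw [map_pow, aeval_X, Int.cast_one, one_mul]
      apply mul_left_cancel₀ hα0
      rw [hinv, ← pow_succ', Nat.sub_add_cancel hm0, hprim.pow_eq_one]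
  · have hn1 : ‖α‖ = 1 := Complex.norm_eq_one_of_pow_eq_one (hp α hα).pow_eq_one hm0.ne'
    rw [← hn1]
    exact Complex.abs_re_le_norm α

end Pool.Agent.H19CM
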