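import Pool.Agent.H19CM.E

/-!
# Weakly global points of level one: a component with complex multiplication

`f ∈ ℤ[X]` monic, `𝒟 = ∞ ∪ V(f) ⊂ ℙ¹_ℤ`, `𝒳 = ℙ¹_ℤ ∖ 𝒟` (kind (i) of the problem when `f` is squarefree
of degree at least two).  Then `𝒳(ℤ) = {z ∈ ℤ : f(z) ∈ ℤ^×}`, `𝒳(ℤ_p) = {z ∈ ℤ_p : f(z) ∈ ℤ_p^×}`, and
`𝒳(ℤ_p)_1` is the set `Level1` of the `z ∈ 𝒳(ℤ_p)` such that a power of `z - X` is in the closure of
`(ℤ[X]/(f))^×` in `(ℤ_p[X]/(f))^×` (Kummer theory; see the starting file `LevelOneForTheLine`, whose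
definitions are used here).

Let `g` be a monic irreducible polynomial with complex multiplication: `ℚ[X]/(g)` is a CM field, that
is, `g` has no real root and the complex conjugate of each root `α` is `c(α) / m` with the same
`c ∈ ℤ[X]`, `m ∈ ℤ`.  Let `f` be any monic multiple of `g`, for instance `f = g`.

* Every point `z` of `𝒳(ℤ_p)_1` is a totally real algebraic integer, with `g(z) = 1` and `q(z) = ± 1` for
  all monic divisors `q` of `f`.  So `𝒳(ℤ_p)_1` has at most `deg g` points, for every `p`.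
* `𝒳(ℤ_p)_1 = 𝒳(ℤ)` (question Q1 with `N = 1`) for every `p` if all totally real algebraic numbers `w`
  with `g(w) = 1` and `q(w) = ± 1` for all these `q` are integers.
* In particular this holds if the real parts of all roots of `g` are in `[a - 1, a + 1]`, `a ∈ ℤ`; then
  `𝒳(ℤ_p)_1 ⊂ {a - 1, a, a + 1}`.
* So `𝒳(ℤ_p)_1 = 𝒳(ℤ)` for every `p` if `f` is divisible by a cyclotomic polynomial `Φ_m`, `m ≥ 3`, or by
  `h(X² + bX)`, where `h ≠ 1` is monic and all roots of `h` are real and smaller than `- b² / 4`.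

Idea: for a unit `u` of `ℤ[X]/(g)` the quotient `u(α) / u(ᾱ)` is a root of unity of bounded order.  So
`((z - β) / (z - β'))^N = 1` for every root `β` of `g` in the algebraic closure of `ℚ_p` and the
conjugate root `β' = c(β) / m`.  As `f(z)` is a root of unity, `z` is algebraic; if `w` is one of its
complex conjugates it has the same distance from a root `α` and from `ᾱ`, so it is real.
-/

set_option autoImplicit false

open Polynomial

namespace Pool.Agent.H19CM.Main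

/-- `𝒳(ℤ)` -/
def IntPts (f : ℤ[X]) : Set ℤ := {z | IsUnit (f.eval z)}

/-- `𝒳(ℤ_p)` -/
def PadicPts (p : ℕ) [Fact p.Prime] (f : ℤ[X]) : Set ℤ_[p] :=
  {z | IsUnit ((f.map (Int.castRingHom ℤ_[p])).eval z)}

/-- `u` is a unit of `ℤ[X]/(f)` -/
def UnitMod (f u : ℤ[X]) : Prop := ∃ v a : ℤ[X], u * v = 1 + f * a

/-- the class of `P` is in the closure of the image of `(ℤ[X]/(f))^×` in `ℤ_p[X]/(f)` -/
def InClosure (p : ℕ) [Fact p.Prime] (f : ℤ[X]) (P : ℤ_[p][X]) : Prop :=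
  ∀ k : ℕ, ∃ u : ℤ[X], UnitMod f u ∧ ∃ b c : ℤ_[p][X],
    P = u.map (Int.castRingHom ℤ_[p]) + f.map (Int.castRingHom ℤ_[p]) * b +
      C ((p : ℤ_[p]) ^ k) * c

/-- `𝒳(ℤ_p)_1` -/
def Level1 (p : ℕ) [Fact p.Prime] (f : ℤ[X]) : Set ℤ_[p] :=
  {z | z ∈ PadicPts p f ∧ ∃ n : ℕ, 0 < n ∧ InClosure p f ((C z - X) ^ n)}

/-- `𝒳(ℤ_p)_1 = 𝒳(ℤ)` -/
def Settled (p : ℕ) [Fact p.Prime] (f : ℤ[X]) : Prop :=
  Level1 p f = (fun z : ℤ => (z : ℤ_[p])) '' IntPts f

/-- `g` is monic, irreducible, without real roots, and the complex conjugate of each root `α` is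
`c(α) / m`, with an integral polynomial `c` and an integer `m ≠ 0` which do not depend on `α` -/
def CMPoly (g : ℤ[X]) : Prop :=
  g.Monic ∧ Irreducible g ∧ ∃ (c : ℤ[X]) (m : ℤ), m ≠ 0 ∧
    ∀ α : ℂ, aeval α g = 0 → α.im ≠ 0 ∧ aeval α c = m * (starRingEnd ℂ) α

/-- the complex number `w` is a root of the same integral polynomials as `z` -/
def Conj {R : Type} [CommRing R] (z : R) (w : ℂ) : Prop :=
  ∀ Q : ℤ[X], aeval z Q = 0 ↔ aeval w Q = 0

section proof

open Pool.Agent.N874.WG Pool.Agent.H76K Pool.Agent.H19CM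

variable {p : ℕ} [Fact p.Prime]

theorem mem_level (f : ℤ[X]) (x : ℤ) (hx : x ∈ IntPts f) : (x : ℤ_[p]) ∈ Level1 p f := by
  have hx' : f.eval x = 1 ∨ f.eval x = -1 := Int.isUnit_iff.1 hx
  refine ⟨?_, 1, one_pos, approx_int f x hx'⟩
  change IsUnit ((toP p f).eval (x : ℤ_[p]))
  rw [toP_eval_int]
  rcases hx' with h | h <;> rw [h] <;> simp

theorem settled_of {f : ℤ[X]} (hf : f.Monic)
    (h : ∀ (z : ℤ_[p]) (n : ℕ), 0 < n → Approx p f z n → ∃ x : ℤ, z = x) : Settled p f := by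
  refine Set.Subset.antisymm ?_ ?_
  · rintro z ⟨-, n, hn, hz⟩
    obtain ⟨x, rfl⟩ := h z n hn hz
    have h1 := f_pow hf hz
    rw [toP_eval_int] at h1
    exact ⟨x, Int.isUnit_iff.2 (int_pm (by omega : 0 < 2 * n) h1), rfl⟩
  · rintro z ⟨x, hx, rfl⟩
    exact mem_level f x hx

end proof

open Pool.Agent.N874.WG Pool.Agent.H76K Pool.Agent.H19CM in
open scoped Classical in
theorem result :
    (∀ f g : ℤ[X], f.Monic → CMPoly g → g ∣ f →
      -- the points of level one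
      (∀ (p : ℕ) [Fact p.Prime],
        (∀ z ∈ Level1 p f, aeval z g = 1 ∧
          (∀ q : ℤ[X], q.Monic → q ∣ f → aeval z q = 1 ∨ aeval z q = -1) ∧
          (∃ w : ℂ, Conj z w) ∧ ∀ w : ℂ, Conj z w → w.im = 0) ∧
        (Level1 p f).Finite ∧ (Level1 p f).ncard ≤ g.natDegree) ∧
      -- the criterion
      ((∀ w : ℂ, (∀ w' : ℂ, Conj w w' → w'.im = 0) → aeval w g = 1 →
          (∀ q : ℤ[X], q.Monic → q ∣ f → aeval w q = 1 ∨ aeval w q = -1) → ∃ x : ℤ, w = x) →
        ∀ (p : ℕ) [Fact p.Prime], Settled p f) ∧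
      -- roots in a strip
      (∀ a : ℤ, (∀ α : ℂ, aeval α g = 0 → |α.re - a| ≤ 1) → ∀ (p : ℕ) [Fact p.Prime],
        Settled p f ∧ ∀ z ∈ Level1 p f, z = a ∨ z = a - 1 ∨ z = a + 1)) ∧
    -- cyclotomic components
    (∀ (m : ℕ) (f : ℤ[X]), 3 ≤ m → f.Monic → cyclotomic m ℤ ∣ f →
      ∀ (p : ℕ) [Fact p.Prime], Settled p f) ∧
    -- the components `h(X² + bX)`
    (∀ (h f : ℤ[X]) (b : ℤ), h.Monic → 0 < h.natDegree →
      (∀ r : ℂ, aeval r h = 0 → r.im = 0 ∧ 4 * r.re < -(b : ℝ) ^ 2) →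
      f.Monic → h.comp (X ^ 2 + C b * X) ∣ f → ∀ (p : ℕ) [Fact p.Prime], Settled p f) := by
  have strip : ∀ f g : ℤ[X], f.Monic → CMPoly g → g ∣ f → ∀ a : ℤ,
      (∀ α : ℂ, aeval α g = 0 → |α.re - a| ≤ 1) → ∀ (p : ℕ) [Fact p.Prime],
        Settled p f ∧ ∀ z ∈ Level1 p f, z = a ∨ z = a - 1 ∨ z = a + 1 := by
    rintro f g hf ⟨hg, hi, c, m, hm, hc⟩ hgf a ha p _
    refine ⟨settled_of hf fun z n hn hz => ?_, ?_⟩
    · rcases strip_int hg hi ⟨hm, hc⟩ hgf ha hn hz with h | h | h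
      · exact ⟨a, h⟩
      · exact ⟨a - 1, by rw [h]; push_cast; ring⟩
      · exact ⟨a + 1, by rw [h]; push_cast; ring⟩
    · rintro z ⟨-, n, hn, hz⟩
      exact strip_int hg hi ⟨hm, hc⟩ hgf ha hn hz
  refine ⟨?_, ?_, ?_⟩
  · intro f g hf hcm hgf
    obtain ⟨hg, hi, c, m, hm, hc⟩ := id hcm
    have hpos := pos_natDegree hg hi
    have main : ∀ (p : ℕ) [Fact p.Prime], ∀ z ∈ Level1 p f, aeval z g = 1 ∧
          (∀ q : ℤ[X], q.Monic → q ∣ f → aeval z q = 1 ∨ aeval z q = -1) ∧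
          (∃ w : ℂ, Conj z w) ∧ ∀ w : ℂ, Conj z w → w.im = 0 := by
      rintro p _ z ⟨-, n, hn, hz⟩
      obtain ⟨h1, h2, h3, h4⟩ := level_main hg hi ⟨hm, hc⟩ hgf hn hz
      exact ⟨h4, h3, h2, h1⟩
    refine ⟨fun p _ => ⟨main p, ?_⟩, ?_, fun a ha p _ => strip f g hf hcm hgf a ha p⟩
    · have hne : (g - 1).map (algebraMap ℤ ℤ_[p]) ≠ 0 := by
        rw [Ne, Polynomial.map_eq_zero_iff (algebraMap ℤ ℤ_[p]).injective_int, sub_eq_zero]
        intro h1
        rw [h1, natDegree_one] at hpos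
        exact lt_irrefl _ hpos
      have hsub : Level1 p f ⊆
          (((g - 1).map (algebraMap ℤ ℤ_[p])).roots.toFinset : Set ℤ_[p]) := by
        intro z hz
        rw [Finset.mem_coe, Multiset.mem_toFinset, mem_roots hne, IsRoot.def,
          eval_map_algebraMap, map_sub, map_one, (main p z hz).1, sub_self]
      refine ⟨(Finset.finite_toSet _).subset hsub, ?_⟩
      refine (Set.ncard_le_ncard hsub (Finset.finite_toSet _)).trans ?_
      rw [Set.ncard_coe_finset]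
      refine (Multiset.toFinset_card_le _).trans ((card_roots' _).trans (natDegree_map_le.trans ?_))
      exact (natDegree_sub_le _ _).trans (by simp)
    · intro hint p _
      refine settled_of hf fun z n hn hz => ?_
      obtain ⟨h1, ⟨w, hw⟩, h3, h4⟩ := level_main hg hi ⟨hm, hc⟩ hgf hn hz
      have back : ∀ (q : ℤ[X]) (e : ℤ), aeval z q = e → aeval w q = e := by
        intro q e hqe
        have h5 := (hw (q - C e)).1 (by rw [map_sub, hqe, aeval_C]; simp)
        rw [map_sub, aeval_C, sub_eq_zero] at h5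
        rw [h5]
        simp
      obtain ⟨x, hx⟩ := hint w (fun w' hw' => h1 w' fun Q => (hw Q).trans (hw' Q))
        (by have := back g 1 (by rw [h4]; simp); simpa using this)
        (fun q hq hqf => by
          rcases h3 q hq hqf with h5 | h5
          · left
            have := back q 1 (by rw [h5]; simp)
            simpa using this
          · right
            have := back q (-1) (by rw [h5]; simp)
            simpa using this)
      exact ⟨x, cj_int hw hx⟩
  · intro m f hm hf hmf p _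
    obtain ⟨hc, hre⟩ := cyc_conj hm
    exact (strip f (cyclotomic m ℤ) hf ⟨cyclotomic.monic m ℤ, cyclotomic.irreducible (by omega),
      _, _, hc.1, hc.2⟩ hmf 0 (fun α hα => by simpa using hre α hα) p).1
  · intro h f b hh hd hr hf hhf p _
    obtain ⟨g, hg, hi, hgh, hc, hre⟩ := comp_conj hh hd b hr
    obtain ⟨b', hb⟩ : ∃ b' : ℤ, b = 2 * b' ∨ b = 2 * b' + 1 := ⟨b / 2, by omega⟩
    refine (strip f g hf ⟨hg, hi, _, _, hc.1, hc.2⟩ (hgh.trans hhf) (-b') (fun α hα => ?_) p).1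
    rw [hre α hα, abs_le]
    push_cast
    rcases hb with hb | hb
    · have e : (b : ℝ) = 2 * b' := by exact_mod_cast hb
      rw [e]
      constructor <;> linarith
    · have e : (b : ℝ) = 2 * b' + 1 := by exact_mod_cast hb
      rw [e]
      constructor <;> linarith

end Pool.Agent.H19CM.Main
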